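import Mathlib.GroupTheory.FreeAbelianGroup
import Pool.Agent.MP_a43263_nt.JC.Pres

/-! The Jacobian of `y ^ 2 = f(x)` for `f` of even degree, as the group of classes of divisors of
degree zero on the affine curve, and its Tate-Shafarevich group. -/

noncomputable section

namespace Pool.Agent.MP_a43263_nt.VJ

open Polynomial JC

variable {K L : Type} [Field K] [Field L]

/-- The points of the affine curve `y ^ 2 = f(x)`. -/
def Pt (f : K[X]) : Type := {p : K × K // p.2 ^ 2 = f.eval p.1}

/-- The ideal `(x - a, y - b)` of the point `(a, b)`. -/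
def mx {f : K[X]} (p : Pt f) : Ideal (Rg f) := Ideal.span {⟨X - C p.1.1, 0⟩, ⟨-C p.1.2, 1⟩}

/-- The function `a + b y` has the same order at the two points at infinity. -/
def Bal {f : K[X]} (h : Rg f) : Prop :=
  (h.re ^ 2 - f * h.im ^ 2).degree = max (h.re ^ 2).degree (f * h.im ^ 2).degree

/-- The group generated by the divisors of zeros of such functions. -/
def Prin (f : K[X]) : AddSubgroup (FreeAbelianGroup (Pt f)) :=
  AddSubgroup.closure {D | ∃ (s : Multiset (Pt f)) (h : Rg f), Bal h ∧
    (s.map mx).prod = Ideal.span {h} ∧ D = (s.map FreeAbelianGroup.of).sum}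

/-- Divisor classes. -/
def Cls (f : K[X]) : Type := FreeAbelianGroup (Pt f) ⧸ Prin f

instance clsGroup (f : K[X]) : AddCommGroup (Cls f) := QuotientAddGroup.Quotient.addCommGroup _

/-- The class of a point. -/
def pt {f : K[X]} (p : Pt f) : Cls f := QuotientAddGroup.mk (FreeAbelianGroup.of p)

/-- The classes of the divisors of degree zero. -/
def Deg0 (f : K[X]) : AddSubgroup (Cls f) := AddSubgroup.closure {x | ∃ p q, x = pt p - pt q}

/-- The map on points induced by a field homomorphism. -/
def ptmap (φ : K →+* L) {f : K[X]} {F : L[X]} (e : f.map φ = F) (p : Pt f) : Pt F :=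
  ⟨(φ p.1.1, φ p.1.2), by rw [← e, eval_map, eval₂_at_apply, ← p.2, map_pow]⟩

theorem mx_map (φ : K →+* L) {f : K[X]} {F : L[X]} (e : f.map φ = F) (p : Pt f) :
    (mx p).map (rmap φ e) = mx (ptmap φ e p) := by
  rw [mx, mx, Ideal.map_span, Set.image_pair]
  simp [rmap, ptmap]

theorem Bal.map (φ : K →+* L) {f : K[X]} {F : L[X]} (e : f.map φ = F) {h : Rg f} (b : Bal h) :
    Bal (rmap φ e h) := by
  subst e
  show (h.re.map φ ^ 2 - f.map φ * h.im.map φ ^ 2).degree =
    max (h.re.map φ ^ 2).degree (f.map φ * h.im.map φ ^ 2).degree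
  simp only [← Polynomial.map_pow, ← Polynomial.map_mul, ← Polynomial.map_sub, degree_map]
  exact b

/-- The map on divisor classes induced by a field homomorphism. -/
def cmap (φ : K →+* L) {f : K[X]} {F : L[X]} (e : f.map φ = F) : Cls f →+ Cls F :=
  QuotientAddGroup.map _ _ (FreeAbelianGroup.map (ptmap φ e)) <| (AddSubgroup.closure_le _).2 <| by
    rintro _ ⟨s, h, b, m, rfl⟩
    refine AddSubgroup.subset_closure ⟨s.map (ptmap φ e), rmap φ e h, b.map φ e, ?_, ?_⟩
    · have := congrArg (Ideal.mapHom (rmap φ e)) m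
      rw [map_multiset_prod, Multiset.map_map] at this
      simpa [Multiset.map_map, mx_map, Ideal.map_span] using this
    · simp [map_multiset_sum, Multiset.map_map]

variable [CharZero K] [CharZero L]

/-- The points of the Jacobian over an algebraically closed field `K`. -/
def Jac (f : ℚ[X]) (K : Type) [Field K] [CharZero K] : Type := Deg0 (fK f K)

instance jacGroup (f : ℚ[X]) (K : Type) [Field K] [CharZero K] : AddCommGroup (Jac f K) :=
  (Deg0 (fK f K)).toAddCommGroup

/-- The map of Jacobians induced by a field homomorphism. -/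
def jmap (f : ℚ[X]) (φ : K →+* L) : Jac f K →+ Jac f L :=
  ((cmap φ (fK_map f φ)).comp (Deg0 (fK f K)).subtype).codRestrict (Deg0 (fK f L)) fun x =>
    (AddSubgroup.closure_le ((Deg0 (fK f L)).comap (cmap φ (fK_map f φ)))).2 (by
      rintro _ ⟨p, q, rfl⟩
      exact AddSubgroup.subset_closure ⟨ptmap φ (fK_map f φ) p, ptmap φ (fK_map f φ) q,
        map_sub _ _ _⟩) x.2

/-- The action of the absolute Galois group of `ℚ` on the geometric points. -/
def jac (f : ℚ[X]) (σ : AlgebraicClosure ℚ ≃ₐ[ℚ] AlgebraicClosure ℚ) :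
    Jac f (AlgebraicClosure ℚ) →+ Jac f (AlgebraicClosure ℚ) :=
  jmap f (σ : AlgebraicClosure ℚ →+* AlgebraicClosure ℚ)

/-- The rational points: the geometric points fixed by the Galois group. -/
def JQ (f : ℚ[X]) : Type := JP.Fix (jac f)

instance jqGroup (f : ℚ[X]) : AddCommGroup (JQ f) := (JP.Fix (jac f)).toAddCommGroup

/-- The Galois cohomology group `H¹(ℚ, J)`. -/
def JH (f : ℚ[X]) : Type := H1 (jac f)

instance jhGroup (f : ℚ[X]) : AddCommGroup (JH f) := instAddCommGroupH1 (jac f)

/-- The restriction of the cocycle `c` to the absolute Galois group of `K` is a coboundary;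
here `τ` is the restriction of `σ` along the fixed embedding. -/
def JLoc (f : ℚ[X]) (K : Type) [Field K] [CharZero K]
    (c : (AlgebraicClosure ℚ ≃ₐ[ℚ] AlgebraicClosure ℚ) → Jac f (AlgebraicClosure ℚ)) : Prop :=
  ∃ R : Jac f (AlgebraicClosure K), ∀ (σ : AlgebraicClosure K ≃ₐ[K] AlgebraicClosure K)
    (τ : AlgebraicClosure ℚ ≃ₐ[ℚ] AlgebraicClosure ℚ), (∀ x, emb K (τ x) = σ (emb K x)) →
      jmap f (emb K) (c τ) = jmap f (σ : AlgebraicClosure K →+* AlgebraicClosure K) R - R

/-- The Tate-Shafarevich group: classes that are trivial over `ℝ` and over every `ℚ_[p]`. -/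
def JSha (f : ℚ[X]) : Set (JH f) :=
  {x | ∃ c : Z1 (jac f), H1.mk (jac f) c = x ∧ JLoc f ℝ c ∧
    ∀ (p : ℕ) [Fact p.Prime], JLoc f ℚ_[p] c}

end Pool.Agent.MP_a43263_nt.VJ
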