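import Pool.Agent.MP_a43263_nt.U99.Fc
import Pool.Agent.MP_a43263_nt.VV.Defs

/-! THEOREM V: the interfaces between the parts. Blueprint: `/team-store/V_BLUEPRINT.md`. -/

set_option autoImplicit false

noncomputable section

namespace Pool.Agent.MP_a43263_nt.VV

open Polynomial Finset Filter Matrix JC
open UV (Qb zK iq rq Nm Nx)

abbrev GQ : Type := Qb ≃ₐ[ℚ] Qb

abbrev Mat (g : ℕ) (R : Type) : Type := Matrix (Fin (2 * g + 2)) (Fin (2 * g + 2)) R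

/-- an integral matrix over the ring `R` -/
abbrev mK {g : ℕ} (A : Mat g ℤ) (R : Type) [CommRing R] : Mat g R := A.map (Int.castRingHom R)

/-- the monic integral polynomial of `lc f * θ` -/
abbrev nz (f : ℤ[X]) : ℤ[X] := f.integralNormalization

section
variable {K : Type} [Field K]

/-- the monic multiple -/
def mo (f : K[X]) : K[X] := C f.leadingCoeff⁻¹ * f

structure Sq (g : ℕ) (f : K[X]) : Prop where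
  pos : 2 ≤ g
  deg : f.natDegree = 2 * g + 2
  sep : f.Separable

/-- the image of the descent map of `y ^ 2 = f(x)` on divisors of degree `π` modulo 2 -/
def Wv (f δ : K[X]) (π : ZMod 2) : Prop := IsCoprime δ f ∧ ∃ (U V s : K[X]) (r : K), U.Monic ∧
  (U.natDegree : ZMod 2) = π ∧ U ∣ f - V ^ 2 ∧ IsCoprime U f ∧ r ≠ 0 ∧ f ∣ δ * (C r * U) - s ^ 2

/-- a constant times a square modulo `f` -/
def Sqc (f δ : K[X]) : Prop := ∃ (r : K) (z : K[X]), r ≠ 0 ∧ f ∣ δ - C r * z ^ 2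

/-- a rational divisor of odd degree -/
def Od (f : K[X]) : Prop := ∃ U V : K[X], U.Monic ∧ Odd U.natDegree ∧ U ∣ f - V ^ 2

end

/-- negative definite -/
def Neg (f : ℚ[X]) : Prop := ∀ x : ℝ, (fK f ℝ).eval x < 0

/-- the fake 2-Selmer group is trivial -/
def SelT (f : ℚ[X]) : Prop := ∀ δ : ℚ[X],
  (∀ (p : ℕ) [Fact p.Prime], Wv (fK f ℚ_[p]) (fK δ ℚ_[p]) 0) → Sqc f δ

/-- no prime is deficient -/
def OdP (f : ℚ[X]) : Prop := ∀ (p : ℕ) [Fact p.Prime], Od (fK f ℚ_[p])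

def Good (g : ℕ) (f : ℚ[X]) : Prop := f.natDegree = 2 * g + 2 ∧ Irreducible f ∧
  (∀ P : VJ.JQ f, ∃ R, 2 • R = P) ∧
  Nat.card {x : VJ.JH f // x ∈ VJ.JSha f ∧ ∃ k : ℕ, 2 ^ k • x = 0} = if Even g then 2 else 1

/-- a constant times a square modulo `p` -/
def Sx (p : ℕ) (f : ℤ[X]) : Prop := ∃ (c : ZMod p) (G : (ZMod p)[X]), zK f (ZMod p) = C c * G ^ 2

/-- good reduction with a rational root at infinity -/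
def Gi (g p : ℕ) (f : ℤ[X]) : Prop :=
  (zK f (ZMod p)).Separable ∧ (zK f (ZMod p)).natDegree = 2 * g + 1

/-- the family -/
structure Fam (g : ℕ) (f : ℤ[X]) : Prop where
  pos : 2 ≤ g
  deg : f.natDegree = 2 * g + 2
  irr : Irreducible (zK f ℚ)
  neg : Neg (zK f ℚ)
  sf : Squarefree f.leadingCoeff
  inf : ∀ p : ℕ, p.Prime → (p : ℤ) ∣ f.leadingCoeff → Gi g p f
  two : ∃ h : (ZMod 2)[X], zK f (ZMod 2) = X * h ∧ Irreducible h ∧ h.natDegree = 2 * g + 1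

/-- the type at a prime of `Q` -/
def Ty (g q : ℕ) (f : ℤ[X]) : Prop := ∃ (c : ZMod q) (h : (ZMod q)[X]), c ≠ 0 ∧
  zK f (ZMod q) = C c * (X * (X - 1) * h) ∧ h.Monic ∧ Irreducible h ∧ h.natDegree = 2 * g ∧
  IsSquare (h.eval 0 * h.eval 1)

/-- a uniformiser at the prime of large degree -/
def pv (q : ℕ) (f : ℤ[X]) : ℤ[X] := (f /ₘ (X ^ 2 - X)) ^ 2 + C (q : ℤ)

section
variable (p : ℕ) [Fact p.Prime]

/-- a unit times a square times a constant -/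
def Ev (f : ℤ[X]) (δ : ℚ_[p][X]) : Prop := ∃ (x : ℚ_[p][X]) (r : ℚ_[p]) (w : ℤ_[p][X]), r ≠ 0 ∧
  zK f ℚ_[p] ∣ δ * x ^ 2 * C r - iq p w ∧ IsCoprime (rq p w) (zK f (ZMod p))

/-- the local invariants -/
def NF (f : ℤ[X]) (δ : ℚ_[p][X]) (u y : ZMod 2) : Prop :=
  ∃ (x : ℚ_[p][X]) (r : ℚ_[p]) (w : ℤ_[p][X]), r ≠ 0 ∧
    zK f ℚ_[p] ∣ δ * x ^ 2 * C r - iq p w * zK (pv p f) ℚ_[p] ^ y.val ∧
    IsCoprime (rq p w) (zK f (ZMod p)) ∧ (IsSquare ((rq p w).eval 0 * (rq p w).eval 1) ↔ u = 0)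

end

/-- the strict group is trivial -/
def Str (Q : Finset ℕ) (f : ℤ[X]) : Prop := ∀ δ : ℚ[X], IsCoprime δ (zK f ℚ) →
  IsSquare (Nm (mo (zK f ℚ)) δ) → (∀ (p : ℕ) [Fact p.Prime], Ev p f (fK δ ℚ_[p])) →
  (∀ (q : ℕ) [Fact q.Prime], q ∈ Q → NF q f (fK δ ℚ_[q]) 0 0) → Sqc (zK f ℚ) δ

/-- the condition modulo a prime of `Q` -/
def St {R : Type} [CommRing R] {g : ℕ} (a : R) (F : R[X]) (A B : Mat g R) : Prop :=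
  ∃ T : Mat g R, A * T = B ∧ T.charpoly = F ∧ ∃ (x y : Fin (2 * g + 2) → R) (s : R), s ≠ 0 ∧
    T *ᵥ x = 0 ∧ T *ᵥ y = a • y ∧ (x ⬝ᵥ A *ᵥ x) * (y ⬝ᵥ A *ᵥ y) = s ^ 2

/-- a unimodular form and a self-adjoint operator of rank one modulo `D` -/
structure Rep (g : ℕ) (D : ℤ) (F : ℤ[X]) (A T : Mat g ℤ) : Prop where
  sa : A.IsSymm
  sb : (A * T).IsSymm
  det : IsUnit A.det
  ch : T.charpoly = F
  rk : ∀ i j k l, D ∣ (A * T) i j * (A * T) k l - (A * T) i l * (A * T) k j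

/-- distinguished subspaces are not too short -/
def Cusp {g : ℕ} (M D : ℝ) (A T : Mat g ℤ) : Prop :=
  ∀ e : Fin (g + 1) → Fin (2 * g + 2) → ℤ, LinearIndependent ℤ e → (∀ i j, e i ⬝ᵥ A *ᵥ e j = 0) →
    (∀ i j k l, (e i ⬝ᵥ (A * T) *ᵥ e j) * (e k ⬝ᵥ (A * T) *ᵥ e l) =
      (e i ⬝ᵥ (A * T) *ᵥ e l) * (e k ⬝ᵥ (A * T) *ᵥ e j)) →
    M ^ 2 * D ^ (g * (g + 1)) ≤
      |(((Matrix.of fun i j => e i ⬝ᵥ (A * T ^ (g + 1)) *ᵥ e j).det : ℤ) : ℝ)|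

/-- the polynomials that are counted -/
def Cl (g : ℕ) (Q : Finset ℕ) (f₀ : ℤ[X]) (M : ℝ) (f : ℤ[X]) : Prop :=
  ∃ A T : Mat g ℤ, Rep g f.leadingCoeff (nz f) A T ∧
    (∀ q ∈ Q, St (f₀.leadingCoeff : ZMod q) (zK (nz f₀) (ZMod q)) (mK A (ZMod q))
      (mK (A * T) (ZMod q))) ∧ Cusp M |(f.leadingCoeff : ℝ)| A T

/-- the polynomial with the coefficients `c` -/
def fm {R : Type} [CommRing R] {n : ℕ} (c : Fin n → R) : R[X] := ∑ i, C (c i) * X ^ i.1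

/-! ### the parts -/

/-- trivial in the Brauer group of `K` -/
def BrLoc (K : Type) [Field K] [CharZero K] (c : GQ → GQ → ℤˣ) : Prop :=
  ∃ β : (AlgebraicClosure K ≃ₐ[K] AlgebraicClosure K) → AlgebraicClosure K, IsLocallyConstant β ∧
    (∀ s, β s ≠ 0) ∧ ∀ s s₁ t t₁, (∀ x, emb K (t x) = s (emb K x)) →
      (∀ x, emb K (t₁ x) = s₁ (emb K x)) →
      ((c t t₁ : ℤ) : AlgebraicClosure K) * β (s * s₁) = β s * s (β s₁)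

/-- H: the Hasse principle for the 2-torsion of the Brauer group -/
def HStmt : Prop := ∀ c : GQ → GQ → ℤˣ, IsLocallyConstant (fun x : GQ × GQ => c x.1 x.2) →
  (∀ a b e, c a b * c (a * b) e = c b e * c a (b * e)) →
  (∀ (p : ℕ) [Fact p.Prime], BrLoc ℚ_[p] c) →
  ∃ b : GQ → ℤˣ, IsLocallyConstant b ∧ ∀ s t, c s t * b (s * t) = b s * b t

/-- D: descent -/
def DESCStmt : Prop := ∀ (g : ℕ) (f : ℚ[X]), 2 ≤ g → f.natDegree = 2 * g + 2 → Irreducible f →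
  Neg f → OdP f → SelT f → Good g f

/-- A: a twist without Selmer group -/
def KILLStmt : Prop := ∀ (g : ℕ) (f : ℤ[X]) (Q : Finset ℕ), Fam g f →
  (∀ q ∈ Q, q.Prime ∧ q % 8 = 1 ∧ Ty g q f) → (∀ p : ℕ, p.Prime → ¬Nx p f) → Str Q f →
  ∃ S ⊆ Q, SelT (C (∏ q ∈ S, (q : ℚ)) * zK f ℚ)

/-- points of odd degree -/
def ODDStmt : Prop := (∀ (p : ℕ) [Fact p.Prime] (F : ℤ_[p][X]), p ≠ 2 →
    (∀ (c : ZMod p) (G : (ZMod p)[X]), rq p F ≠ C c * G ^ 2) → Od (iq p F)) ∧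
  ∀ (p : ℕ) [Fact p.Prime] (F : ℤ_[p][X]) (a : ZMod p) (c : ℚ_[p]), (rq p F).eval a = 0 →
    (rq p F).derivative.eval a ≠ 0 → Od (C c * iq p F)

/-- B: the bad polynomials are counted -/
def BADStmt : Prop := ∀ (g : ℕ) (f : ℤ[X]) (Q : Finset ℕ) (M : ℝ), Fam g f →
  (∀ q ∈ Q, q.Prime ∧ q % 4 = 1 ∧ Ty g q f) → 0 ≤ M →
  (¬Str Q f ∨ ∃ p : ℕ, p.Prime ∧ p ≠ 2 ∧ p ∉ Q ∧ M ≤ p ∧ (Nx p f ∨ Sx p f)) → Cl g Q f M f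

/-- the count over a finite field -/
def FCStmt : Prop := ∀ g : ℕ, 1 ≤ g → ∃ q₀ : ℕ, ∀ (F : Type) [Field F] [Fintype F] [DecidableEq F],
  q₀ ≤ Fintype.card F → (2 : F) ≠ 0 → ∀ A : Mat g F, A.IsSymm → A.det ≠ 0 →
  ∀ (a b : F) (h : F[X]), a ≠ b → Irreducible h → h.natDegree = 2 * g →
  5 * Nat.card {T : Mat g F // (A * T).IsSymm ∧ T.charpoly = (X - C a) * (X - C b) * h ∧
    ∃ x y s, s ≠ 0 ∧ T *ᵥ x = a • x ∧ T *ᵥ y = b • y ∧ (x ⬝ᵥ A *ᵥ x) * (y ⬝ᵥ A *ᵥ y) = s ^ 2} ≤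
    4 * Fintype.card F ^ ((g + 1) * (2 * g + 1))

/-- C: the count -/
def COUNTStmt : Prop := ∀ (g : ℕ) (ρ : ℝ), 2 ≤ g → 1 ≤ ρ → ∃ (q₀ : ℕ) (c : ℝ), 0 < c ∧
  ∀ ε : ℝ, 0 < ε → ∃ M : ℝ, 0 < M ∧ ∀ (Q : Finset ℕ) (f₀ : ℤ[X]), f₀.natDegree = 2 * g + 2 →
  (∀ q ∈ Q, q.Prime ∧ q₀ ≤ q ∧ Ty g q f₀) → ∀ᶠ Z : ℝ in atTop, ∀ F : Finset ℤ[X],
  (∀ f ∈ F, Fam g f ∧ Z ≤ |(f.leadingCoeff : ℝ)| ∧ |(f.leadingCoeff : ℝ)| ≤ 2 * Z ∧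
    (∀ θ : ℂ, (zK f ℂ).eval θ = 0 → ‖θ‖ ≤ ρ) ∧
    (∀ q ∈ Q, (f.leadingCoeff : ZMod q) = f₀.leadingCoeff) ∧ Cl g Q f₀ M f) →
  (F.card : ℝ) ≤ (c * (4 / 5) ^ Q.card / (∏ q ∈ Q, (q : ℝ)) ^ (2 * g + 3) + ε) * Z ^ (2 * g + 3)

/-- E: the sieve -/
def SIEVEStmt : Prop := ∀ g : ℕ, 2 ≤ g → ∃ (Q : Finset ℕ) (ε : ℝ), 0 < ε ∧ (∀ q ∈ Q, 0 < q) ∧
  ∀ᶠ H : ℕ in atTop, ε * (H : ℝ) ^ (2 * g + 3) ≤ ({c : Fin (2 * g + 3) → ℤ | (∀ i, |c i| ≤ H) ∧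
    Fam g (fm c) ∧ ∃ S ⊆ Q, SelT (C (∏ q ∈ S, (q : ℚ)) * zK (fm c) ℚ) ∧
      OdP (C (∏ q ∈ S, (q : ℚ)) * zK (fm c) ℚ)}.ncard : ℝ)

def MainStmt : Prop := ∀ g : ℕ, 2 ≤ g → ∃ ε : ℝ, 0 < ε ∧ ∀ᶠ H : ℕ in atTop,
  ε * ({c : Fin (2 * g + 3) → ℤ | ∀ i, |c i| ≤ H}.ncard : ℝ) ≤
    ({c : Fin (2 * g + 3) → ℤ | (∀ i, |c i| ≤ H) ∧ Good g (fm fun i => (c i : ℚ))}.ncard : ℝ)

end Pool.Agent.MP_a43263_nt.VV
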