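import Pool.Agent.MP_a43263_nt.VD.All
import Pool.Agent.MP_a43263_nt.VE.All
import Pool.Agent.MP_a43263_nt.VH.All
import Pool.Agent.MP_a43263_nt.VW.All
import Pool.Agent.MP_a43263_nt.VW.Ns

/-! THEOREM V: assembly. -/

set_option autoImplicit false

namespace Pool.Agent.MP_a43263_nt.VV

open Polynomial Filter

/-- the conclusion for one polynomial -/
def Best (g : ℕ) (f : ℚ[X]) : Prop := f.natDegree = 2 * g + 2 ∧ Irreducible f ∧ Finite (VJ.JQ f) ∧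
  (∀ P : VJ.JQ f, 2 • P = 0 → P = 0) ∧
  Nat.card {x : VJ.JH f // x ∈ VJ.JSha f ∧ ∃ k : ℕ, 2 ^ k • x = 0} = if Even g then 2 else 1

theorem main {g : ℕ} (hg : 2 ≤ g) : ∃ ε : ℝ, 0 < ε ∧ ∀ᶠ H : ℕ in atTop,
    ε * ({c : Fin (2 * g + 3) → ℤ | ∀ i, |c i| ≤ H}.ncard : ℝ) ≤
      ({c : Fin (2 * g + 3) → ℤ | (∀ i, |c i| ≤ H) ∧ Best g (fm fun i => (c i : ℚ))}.ncard : ℝ) :=
  VE.gen VE.sieveAll hg (Best g) fun d f hd hf hs ho => by
    obtain ⟨a, b, c, e⟩ := VE.FinE.one (VD.desc VH.abhn) hd hf hs ho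
    have h := VW.mw g _ hg a b (VW.ns g f d hf (Nat.cast_pos.2 hd)) c
    exact ⟨a, b, h, fun P k => (Finite.injective_iff_surjective (f := fun P => 2 • P)).2 c
      (k.trans (smul_zero _).symm), e⟩

end Pool.Agent.MP_a43263_nt.VV
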